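import Pool.Agent.Helper28.GRC.UGP
import Pool.Agent.Helper28.UC.AU

/-!
# MP_067c94_co: almost all unicyclic graphs are graceful

The proportion of the graceful ones among the unicyclic graphs (connected, as many edges as vertices) with vertex set `{0, ..., n-1}` tends to `1` as `n` tends to infinity.
-/

set_option autoImplicit false

namespace Pool.Agent.Results.MP_067c94_co.AlmostAllUnicyclic

open Finset Filter Topology Pool.Agent.GRC Pool.Agent.UC

open Classical in
/-- Among the labelled unicyclic graphs on `n` vertices (the connected graphs with vertex set `Fin n` and `n` edges) the proportion of the graceful ones tends to `1`: they have an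
injective labelling `f` of the vertices by `0, ..., q` (`q` is the number of edges) such that different edges have different label differences. -/
theorem result :
    Tendsto (fun n : ℕ =>
      ((univ.filter fun G : SimpleGraph (Fin n) => (G.Connected ∧ G.edgeFinset.card = n) ∧
          ∃ f : Fin n → ℕ, Function.Injective f ∧ (∀ v, f v ≤ G.edgeFinset.card) ∧
            ∀ u v u' v' : Fin n, G.Adj u v → G.Adj u' v' →
              Int.natAbs ((f u : ℤ) - (f v : ℤ)) = Int.natAbs ((f u' : ℤ) - (f v' : ℤ)) →
                s(u, v) = s(u', v')).card : ℝ) /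
        ((univ.filter fun G : SimpleGraph (Fin n) => G.Connected ∧ G.edgeFinset.card = n).card : ℝ))
      atTop (𝓝 1) := by
  have h := almost_uni (10 ^ 5) (by norm_num) (fun n G => Graceful G) (by
    intro ε hε _
    obtain ⟨η, hη, h⟩ := unicyclic_part1 (10 ^ 5) le_rfl ε hε
    refine ⟨η, hη, fun Λ => ?_⟩
    obtain ⟨δ, hδ, n₀, h⟩ := h Λ
    refine ⟨δ, hδ, n₀, ?_⟩
    intro n G hn hG hdeg htail hpend hstar
    have h1 := h (Fin n) G
    rw [Fintype.card_fin] at h1
    have h2 : Unicyclic G := ⟨hG.1, by rw [Fintype.card_fin]; exact hG.2⟩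
    refine h1 hn h2 hdeg htail (hpend.trans (le_of_eq ?_)) (hstar.trans (le_of_eq ?_))
    · exact congrArg Nat.cast (card_filter_iso (Equiv.refl _) fun u => Iff.rfl)
    · exact congrArg Nat.cast (card_filter_iso (Equiv.refl _) fun u => Iff.rfl))
  refine h.congr fun n => ?_
  refine congrArg₂ (fun a b : ℕ => (a : ℝ) / (b : ℝ)) ?_ ?_
  · exact card_filter_iso (Equiv.refl _) fun G => Iff.rfl
  · exact card_filter_iso (Equiv.refl _) fun G => Iff.rfl

end Pool.Agent.Results.MP_067c94_co.AlmostAllUnicyclic
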