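import Mathlib
import Pool.Agent.Helper67.Gr.Final

/-!
# All but finitely many unicyclic graphs with at most `m` non-leaves are graceful

For every `m` there is `N` such that every unicyclic graph with at least `N` vertices, at most `m`
of which are not leaves, is graceful.
-/

namespace Pool.Agent.Results.MP_067c94_co.BoundedCore

/-- **For every `m`, all but finitely many unicyclic graphs with at most `m` vertices of degree
different from one are graceful.** -/
theorem result (m : ℕ) : ∃ N : ℕ, ∀ (V : Type) [Fintype V] [DecidableEq V]
    (G : SimpleGraph V) [DecidableRel G.Adj], G.Connected →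
    G.edgeFinset.card = Fintype.card V →
    (Finset.univ.filter (fun u => G.degree u ≠ 1)).card ≤ m → N ≤ Fintype.card V →
    ∃ f : V → ℕ, Function.Injective f ∧ (∀ v, f v ≤ G.edgeFinset.card) ∧
      ∀ u v u' v' : V, G.Adj u v → G.Adj u' v' →
        Int.natAbs ((f u : ℤ) - (f v : ℤ)) = Int.natAbs ((f u' : ℤ) - (f v' : ℤ)) →
        s(u, v) = s(u', v') :=
  Pool.Agent.Helper67.Gr.bounded_core m

end Pool.Agent.Results.MP_067c94_co.BoundedCore
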