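import Pool.Agent.Helper28.GRC.UGP

/-!
# MP_067c94_co: a sufficient condition for large unicyclic graphs to be graceful

A graph is unicyclic if it is connected and has as many edges as vertices.  Condition: no vertex of huge degree, few edges at the vertices of large degree, linearly many leaves at
vertices of degree two, and linearly many vertices of degree `D + 1` with exactly `D` leaf neighbours (for some fixed `D` at least `10 ^ 5`).
-/

set_option autoImplicit false

namespace Pool.Agent.Results.MP_067c94_co.PendantPathsAndStars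

open Finset

open Classical in
/-- Let `D` be at least `10 ^ 5` and `ε` positive.  There is a positive `η` such that for every `Λ` there are a positive `δ` and `n₀` such that every unicyclic graph `G` with `n`
vertices, `n` at least `n₀`, is graceful if all degrees are at most `δ n`, the sum of the degrees larger than `Λ` is at most `η n`, at least `ε n` leaves have a neighbour of degree two, and at
least `ε n` vertices have degree `D + 1` and exactly `D` neighbours of degree one. -/
theorem result : ∀ D : ℕ, 10 ^ 5 ≤ D → ∀ ε : ℝ, 0 < ε → ∃ η : ℝ, 0 < η ∧ ∀ Λ : ℕ, ∃ δ : ℝ, 0 < δ ∧ ∃ n₀ : ℕ,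
    ∀ (V : Type) [Fintype V] (G : SimpleGraph V), n₀ ≤ Fintype.card V →
      G.Connected → G.edgeFinset.card = Fintype.card V →
      (∀ v, (G.degree v : ℝ) ≤ δ * Fintype.card V) →
      ((∑ v ∈ univ.filter (fun v => Λ < G.degree v), G.degree v : ℕ) : ℝ) ≤ η * Fintype.card V →
      ε * Fintype.card V ≤ ((univ.filter fun u => G.degree u = 1 ∧ ∃ v, G.Adj u v ∧ G.degree v = 2).card : ℝ) →
      ε * Fintype.card V ≤ ((univ.filter fun c => G.degree c = D + 1 ∧
        (univ.filter fun u => G.Adj c u ∧ G.degree u = 1).card = D).card : ℝ) →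
      ∃ f : V → ℕ, Function.Injective f ∧ (∀ v, f v ≤ G.edgeFinset.card) ∧
        ∀ u v u' v' : V, G.Adj u v → G.Adj u' v' →
          Int.natAbs ((f u : ℤ) - (f v : ℤ)) = Int.natAbs ((f u' : ℤ) - (f v' : ℤ)) → s(u, v) = s(u', v') := by
  intro D hD ε hε
  obtain ⟨η, hη, h⟩ := GRC.unicyclic_part1 D hD ε hε
  refine ⟨η, hη, fun Λ => ?_⟩
  obtain ⟨δ, hδ, n₀, h⟩ := h Λ
  refine ⟨δ, hδ, n₀, ?_⟩
  intro V _ G hn h1 h2 h3 h4 h5 h6
  exact h V G hn ⟨h1, h2⟩ h3 h4 h5 h6

end Pool.Agent.Results.MP_067c94_co.PendantPathsAndStars
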